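import Pool.Agent.Helper9.TF.StateB
import Pool.Agent.Helper57.TG.CasDefs

/-!
# Coordinates of invariant vectors of three strands
-/

namespace Pool.Agent.Helper9.Kashaev

open Pool.Agent.Helper9.TG
open scoped Matrix

theorem crd_inj {N : ℕ} (hN : 2 ≤ N) {f : List ℕ → ℂ} (hf : H0 N f) (h : crd N f = 0) : f = 0 := by
  have h1 := rhoS_ker_inj hN ⟨f, hf.sup⟩ (Subtype.ext hf.kerE) (by
    funext x
    obtain ⟨⟨a, ha⟩, ⟨c, hc⟩⟩ := x
    show gg N f a 0 c = 0
    by_cases hac : c = N - 1 - a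
    · subst hac
      have h2 := congrFun h ⟨a, ha⟩
      unfold crd at h2
      exact (mul_eq_zero.mp h2).resolve_left (gau_ne N a)
    · unfold gg
      rw [hf.lev a 0 c (by omega), mul_zero])
  exact congrArg Subtype.val h1

theorem crd_surj {N : ℕ} (hN : 2 ≤ N) (w : Fin N → ℂ) : ∃ f, H0 N f ∧ crd N f = w := by
  obtain ⟨f, hE, hf⟩ := rhoS_ker_surj hN (fun x : I2 N =>
    if (x.1 : ℕ) + x.2 = N - 1 then w x.1 * (gau N x.1)⁻¹ else 0)
  have hgg : ∀ a c : ℕ, a + c ≠ N - 1 → gg N f.1 a 0 c = 0 := by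
    intro a c hac
    by_cases h : a < N ∧ c < N
    · have h2 := congrFun hf (⟨a, h.1⟩, ⟨c, h.2⟩)
      have h3 : gg N f.1 a 0 c = _ := h2
      rw [h3]
      simp only
      rw [if_neg hac]
    · exact gg_zero_of f.2 (by omega)
  have hE' : Eop N f.1 = 0 := congrArg Subtype.val hE
  refine ⟨f.1, ⟨f.2, hE', ?_⟩, ?_⟩
  · intro a b c habc
    by_cases h : a < N ∧ b < N ∧ c < N
    · have h1 := ker_sol hN (Sup3_iff.mp f.2) hE' b h.2.1 a c
      rw [Finset.sum_eq_zero] at h1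
      · unfold gg at h1
        rcases mul_eq_zero.mp h1 with h4 | h4
        · exact absurd h4 (mul_ne_zero (mul_ne_zero (w2_ne h.1) (w2_ne h.2.1)) (w2_ne h.2.2))
        · exact h4
      · intro i hi
        rw [Finset.mem_range] at hi
        rw [hgg _ _ (by omega), mul_zero]
    · exact (Sup3_iff.mp f.2).zero h
  · funext l
    have h2 := congrFun hf (l, ⟨N - 1 - l, by omega⟩)
    have h3 : gg N f.1 l 0 (N - 1 - l) = _ := h2
    unfold crd
    rw [h3]
    simp only
    rw [if_pos (by omega)]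
    field_simp [gau_ne N l]

theorem H0_cup1 {N : ℕ} (hN : 2 ≤ N) : H0 N (slice N .cup 1 (ket [0])) := by
  have h1 : Sup N 1 (ket [0]) := Sup_ket (w := [0]) (by intro x hx; simp at hx; omega)
  refine ⟨h1.cup 1, ?_, ?_⟩
  · rw [← slice_E hN, Eop_ket_zero, slice_zero_fun]; rfl
  · intro a b c h
    simp only [slice, piece]
    split_ifs with h2
    · have : a ≠ 0 := by omega
      simp [ket, this]
    · rfl

theorem H0_cup0 {N : ℕ} (hN : 2 ≤ N) : H0 N (slice N .cup 0 (ket [0])) := by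
  have h1 : Sup N 1 (ket [0]) := Sup_ket (w := [0]) (by intro x hx; simp at hx; omega)
  refine ⟨h1.cup 0, ?_, ?_⟩
  · rw [← slice_E hN, Eop_ket_zero, slice_zero_fun]; rfl
  · intro a b c h
    simp only [slice, piece]
    split_ifs with h2
    · have : c ≠ 0 := by omega
      simp [ket, this]
    · rfl

/-- the coordinates of the minimum on the last two strands -/
lemma crd_cup1_eq {N : ℕ} (hN : 2 ≤ N) :
    crd N (slice N .cup 1 (ket [0])) = w2 N (N - 1) • e0 N := by
  have hw0 : w2 N 0 = 1 := by simp [w2, qfac_zero]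
  funext l
  obtain ⟨l, hl⟩ := l
  unfold crd gg
  simp only [slice, piece, Pi.smul_apply, smul_eq_mul, e0]
  by_cases h : l = 0
  · subst h
    rw [if_pos (by omega), if_pos rfl, hw0]
    simp [ket, cupC, gau]
  · rw [if_neg h]
    have : ket [0] [l] = 0 := by simp [ket, h]
    simp [this]

/-- the coordinates of the minimum on the first two strands -/
lemma crd_cup0_eq {N : ℕ} (hN : 2 ≤ N) :
    crd N (slice N .cup 0 (ket [0])) =
      (gau N (N - 1) * cupC N (N - 1) * w2 N (N - 1)) • (fun i => e0 N (Fin.rev i)) := by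
  have hw0 : w2 N 0 = 1 := by simp [w2, qfac_zero]
  funext l
  obtain ⟨l, hl⟩ := l
  unfold crd gg
  simp only [slice, piece, Pi.smul_apply, smul_eq_mul, e0, Fin.val_rev]
  by_cases h : l = N - 1
  · subst h
    rw [if_pos (by omega), if_pos (by omega), hw0, Nat.sub_self, hw0]
    simp [ket]
    ring
  · rw [if_neg (by omega), if_neg (by omega)]
    ring

theorem crd_cup1 {N : ℕ} (hN : 2 ≤ N) : ∃ κ : ℂ, κ ≠ 0 ∧ crd N (slice N .cup 1 (ket [0])) = κ • e0 N :=
  ⟨w2 N (N - 1), w2_ne (by omega), crd_cup1_eq hN⟩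

theorem crd_cup0 {N : ℕ} (hN : 2 ≤ N) : ∃ κ' : ℂ, κ' ≠ 0 ∧
    (∀ κ : ℂ, crd N (slice N .cup 1 (ket [0])) = κ • e0 N → ‖κ'‖ = ‖κ‖) ∧
    crd N (slice N .cup 0 (ket [0])) = κ' • (fun i => e0 N (Fin.rev i)) := by
  have hn : ‖cupC N (N - 1)‖ = 1 := by
    unfold cupC
    rw [norm_mul, norm_v_zpow, norm_pow, norm_neg, norm_one, one_pow, one_mul]
  refine ⟨gau N (N - 1) * cupC N (N - 1) * w2 N (N - 1), ?_, ?_, crd_cup0_eq hN⟩
  · refine mul_ne_zero (mul_ne_zero (gau_ne _ _) ?_) (w2_ne (by omega))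
    intro h
    rw [h, norm_zero] at hn
    exact zero_ne_one hn
  · intro κ hκ
    rw [crd_cup1_eq hN] at hκ
    have h := congrFun hκ ⟨0, by omega⟩
    simp [e0] at h
    rw [norm_mul, norm_mul, norm_gau, hn, h]
    ring

end Pool.Agent.Helper9.Kashaev
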